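import Pool.Agent.helper45.SGK.Spec

/-! # Project SGK, row AFK: affine predicates -/

set_option autoImplicit false

namespace Pool.Agent.SGK

open Finset Pool.Agent.helper38.Neg Pool.Agent.helper55.NT
open Pool.Agent.SGC (Sg SCirc Ext Mv hw RN Solv stA stB)

/-- the equation `∑ l j z j = ρ` holds on `P` -/
def AFK_eqn {k : ℕ} (P : Finset (Wd k)) (l : Wd k) (ρ : ZMod 2) : Prop :=
  ∀ z' ∈ P, ∑ j, l j * z' j = ρ

open Classical in
/-- the coefficients -/
noncomputable def AFK_a {k : ℕ} [NeZero k] (P : Finset (Wd k)) (n : ℕ) (x : Fin n → Bool)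
    (i : Cl k (tw k n) × Wd k × ZMod 2) (q : Fin (tw k n)) : ZMod 2 :=
  if AFK_eqn P i.2.1 i.2.2 ∧ x (ps i.1) = true then
    ∑ j, if i.1.1 j = q then i.2.1 j else 0
  else 0

open Classical in
/-- the right hand sides -/
noncomputable def AFK_b {k : ℕ} [NeZero k] (P : Finset (Wd k)) (n : ℕ) (x : Fin n → Bool)
    (i : Cl k (tw k n) × Wd k × ZMod 2) : ZMod 2 :=
  if AFK_eqn P i.2.1 i.2.2 ∧ x (ps i.1) = true then i.2.2 + ∑ j, i.2.1 j * i.1.2 j else 0

theorem AFK_row {k : ℕ} [NeZero k] (P : Finset (Wd k)) (n : ℕ) (x : Fin n → Bool)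
    (i : Cl k (tw k n) × Wd k × ZMod 2) (α : Sg (tw k n)) :
    ∑ q, AFK_a P n x i q * α q = AFK_b P n x i ↔
      (AFK_eqn P i.2.1 i.2.2 → x (ps i.1) = true →
        ∑ j, i.2.1 j * (α (i.1.1 j) + i.1.2 j) = i.2.2) := by
  classical
  by_cases h : AFK_eqn P i.2.1 i.2.2 ∧ x (ps i.1) = true
  · have e1 : ∑ q, AFK_a P n x i q * α q = ∑ j, i.2.1 j * α (i.1.1 j) := by
      have e0 : ∀ q, AFK_a P n x i q * α q = ∑ j, if i.1.1 j = q then i.2.1 j * α q else 0 := by
        intro q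
        rw [AFK_a, if_pos h, Finset.sum_mul]
        refine Finset.sum_congr rfl fun j _ => ?_
        rw [ite_mul, zero_mul]
      rw [Finset.sum_congr rfl fun q _ => e0 q, Finset.sum_comm]
      refine Finset.sum_congr rfl fun j _ => ?_
      rw [Finset.sum_ite_eq Finset.univ (i.1.1 j) (fun q => i.2.1 j * α q),
        if_pos (Finset.mem_univ _)]
    have e2 : ∑ j, i.2.1 j * (α (i.1.1 j) + i.1.2 j) =
        ∑ j, i.2.1 j * α (i.1.1 j) + ∑ j, i.2.1 j * i.1.2 j := by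
      rw [← Finset.sum_add_distrib]
      exact Finset.sum_congr rfl fun j _ => mul_add _ _ _
    rw [e1, e2, AFK_b, if_pos h]
    have key : ∀ u v w : ZMod 2, u = w + v ↔ u + v = w := by decide
    rw [key]
    exact ⟨fun h1 _ _ => h1, fun h1 => h1 h.1 h.2⟩
  · have e1 : ∀ q, AFK_a P n x i q * α q = 0 := by
      intro q
      rw [AFK_a, if_neg h, zero_mul]
    rw [Finset.sum_congr rfl fun q _ => e1 q, Finset.sum_const_zero, AFK_b, if_neg h]
    exact ⟨fun _ h1 h2 => absurd ⟨h1, h2⟩ h, fun _ => rfl⟩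

theorem AFK_solv (hAFS : AFS_stmt) {k : ℕ} [NeZero k] (P : Finset (Wd k)) (hP : AffClosed P) (n m : ℕ)
    (e : Cl k (tw k n) × Wd k × ZMod 2 ≃ Fin m) (x : Fin n → Bool) :
    Solv (fun r => AFK_a P n x (e.symm r)) (fun r => AFK_b P n x (e.symm r)) ↔ SAT k P n x := by
  constructor
  · rintro ⟨α, hα⟩
    refine ⟨α, fun c hc => ?_⟩
    rw [hAFS k P hP]
    intro l ρ hl
    have h1 := hα (e (c, l, ρ))
    have h2 := (AFK_row P n x (e.symm (e (c, l, ρ))) α).1 h1
    rw [Equiv.symm_apply_apply] at h2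
    exact h2 hl hc
  · rintro ⟨α, hα⟩
    refine ⟨α, fun r => (AFK_row P n x (e.symm r) α).2 fun h1 h2 => ?_⟩
    exact (hAFS k P hP _).1 (hα _ h2) _ _ h1

theorem AFK_RN {k : ℕ} [NeZero k] (P : Finset (Wd k)) (n m : ℕ)
    (e : Cl k (tw k n) × Wd k × ZMod 2 ≃ Fin m) :
    RN (∅ : Set (Fn n)) 1 ((Set.range fun (q : Fin m × Fin (tw k n)) (x : Fin n → Bool) =>
        decide (AFK_a P n x (e.symm q.1) q.2 = 1)) ∪
      Set.range fun (r : Fin m) (x : Fin n → Bool) => decide (AFK_b P n x (e.symm r) = 1)) := by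
  classical
  have h1 : RN (∅ : Set (Fn n)) 0 (Set.range fun (i : Fin n) (x : Fin n → Bool) => x i) := by
    intro L q hL _
    refine ⟨L, q, hL, by omega, by omega, fun _ h => h, ?_⟩
    rintro g ⟨i, rfl⟩
    exact Or.inr ⟨i, rfl⟩
  have h2 : RN (∅ : Set (Fn n)) 1 {fun _ => false} :=
    (Rel.const ∅ false).mono le_rfl le_rfl le_rfl (by omega)
  refine RN.mono (RN.union h1 h2) le_rfl ?_ (by omega)
  have key : ∀ (Q : Prop) (c : Fin n) (v : ZMod 2),
      (fun x : Fin n → Bool => decide ((if Q ∧ x c = true then v else 0) = (1 : ZMod 2))) ∈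
        ((Set.range fun (i : Fin n) (x : Fin n → Bool) => x i) ∪ {fun _ => false} : Set (Fn n)) := by
    intro Q c v
    by_cases hQ : Q ∧ v = 1
    · left
      refine ⟨c, ?_⟩
      funext x
      show x c = decide ((if Q ∧ x c = true then v else 0) = (1 : ZMod 2))
      cases hx : x c
      · simp
      · simp [hQ.1, hQ.2]
    · right
      rw [Set.mem_singleton_iff]
      funext x
      rw [decide_eq_false_iff_not]
      intro h3
      by_cases h4 : Q ∧ x c = true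
      · rw [if_pos h4] at h3
        exact hQ ⟨h4.1, h3⟩
      · rw [if_neg h4] at h3
        exact zero_ne_one h3
  rintro _ (⟨q, rfl⟩ | ⟨r, rfl⟩)
  · exact key _ _ _
  · exact key _ _ _

theorem AFK (hITR : ITR_stmt) (hAFS : AFS_stmt) : AFK_stmt := by
  intro k _ P hP
  classical
  refine ⟨1 + Polynomial.X * (40 * ((2 ^ (k + 1) + 1) * Polynomial.X + 2) ^ 3) +
    2 * (2 ^ (k + 1) * Polynomial.X) + 2, fun n => ?_⟩
  let e := Fintype.equivFin (Cl k (tw k n) × Wd k × ZMod 2)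
  set m := Fintype.card (Cl k (tw k n) × Wd k × ZMod 2) with hm
  obtain ⟨s, hs, C, o, hC⟩ := hITR n m (tw k n) 1
    (fun x r => AFK_a P n x (e.symm r)) (fun x r => AFK_b P n x (e.symm r)) (AFK_RN P n m e)
  refine ⟨s, hs.trans ?_, C, o, fun x => ?_⟩
  · have ht : tw k n ≤ n := Nat.findGreatest_le n
    have hm1 : m ≤ 2 ^ (k + 1) * n := by
      have h1 : m = (tw k n ^ k * 2 ^ k) * (2 ^ k * 2) := by
        rw [hm]
        simp [Fintype.card_prod, ZMod.card]
      have h2 := Nat.mul_le_mul_right (2 ^ k * 2) (tw_le k n)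
      rw [← h1] at h2
      calc m ≤ n * (2 ^ k * 2) := h2
        _ = 2 ^ (k + 1) * n := by ring
    have h3 : m + tw k n + 2 ≤ (2 ^ (k + 1) + 1) * n + 2 := by
      have : (2 ^ (k + 1) + 1) * n = 2 ^ (k + 1) * n + n := by ring
      omega
    have h4 : tw k n * (40 * (m + tw k n + 2) ^ 3) ≤ n * (40 * ((2 ^ (k + 1) + 1) * n + 2) ^ 3) :=
      Nat.mul_le_mul ht (Nat.mul_le_mul_left _ (Nat.pow_le_pow_left h3 3))
    have h5 : (1 + Polynomial.X * (40 * ((2 ^ (k + 1) + 1) * Polynomial.X + 2) ^ 3) +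
        2 * (2 ^ (k + 1) * Polynomial.X) + 2 : Polynomial ℕ).eval n =
        1 + n * (40 * ((2 ^ (k + 1) + 1) * n + 2) ^ 3) + 2 * (2 ^ (k + 1) * n) + 2 := by
      simp
    rw [h5]
    have h6 : 2 * m ≤ 2 * (2 ^ (k + 1) * n) := Nat.mul_le_mul_left 2 hm1
    omega
  · rw [hC x]
    exact AFK_solv hAFS P hP n m e x

end Pool.Agent.SGK
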