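import Pool.Agent.helper45.SGK.Spec

/-! # Project SGK, row AVR: sub-families -/

set_option autoImplicit false

namespace Pool.Agent.SGK

open Finset Pool.Agent.helper38.Neg Pool.Agent.helper55.NT
open Pool.Agent.SGC (Sg SCirc Ext Mv hw RN Solv stA stB)

theorem AVR : AVR_stmt := by
  intro k _ n V W W' act act' F m ι hF hι hact
  obtain ⟨G, iG, C, emb, hcard, hemb, hval, hsym⟩ := hF
  refine ⟨G, iG, C, emb ∘ ι, hcard, hemb.comp hι, fun w x => hval (ι w) x, fun γ hγ => ?_⟩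
  obtain ⟨π, h1, h2, h3, h4⟩ := hsym γ hγ
  refine ⟨π, h1, h2, h3, fun w => ?_⟩
  show π (emb (ι w)) = emb (ι (act'.f γ w))
  rw [h4, hact γ hγ]

end Pool.Agent.SGK
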